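import Mathlib

/-!
# Opaque sets of the disc, upper bound: the polygon of tangents

Five unit vectors `n_L = (-651, -260) / 701`, `n_0 = (-380, 261) / 461`, `n_1 = (56, 783) / 785`,
`n_2 = (207, 224) / 305`, `n_R = (651, -260) / 701` (normals of tangents of the unit circle) and the
intersections `A, S₁, S₂, B` of consecutive tangents. For every vector `w = (a, b)` either `w / |w|` is on
the arc between `n_L` and `n_R` through `(0, -1)`, or `|w| ≤ w · V` for one of the four points.
-/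

set_option autoImplicit false

namespace Pool.Agent.OU

/-- Let `n = (n1, n2)`, `m = (m1, m2)` be unit vectors with `det (n, m) > 0`, `V` a point with
`V · n = V · m = 1`. If `w = (a, b)` is in the cone of `n` and `m` then `|w| ≤ V · w`. -/
theorem cone {n1 n2 m1 m2 v1 v2 a b : ℝ} (hn : n1 ^ 2 + n2 ^ 2 = 1) (hm : m1 ^ 2 + m2 ^ 2 = 1)
    (hd : 0 < n1 * m2 - n2 * m1) (hvn : v1 * n1 + v2 * n2 = 1) (hvm : v1 * m1 + v2 * m2 = 1)
    (h1 : 0 ≤ n1 * b - n2 * a) (h2 : 0 ≤ a * m2 - b * m1) :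
    Real.sqrt (a ^ 2 + b ^ 2) ≤ a * v1 + b * v2 := by
  set l : ℝ := (a * m2 - b * m1) / (n1 * m2 - n2 * m1) with hl
  set k : ℝ := (n1 * b - n2 * a) / (n1 * m2 - n2 * m1) with hk
  have hd' := hd.ne'
  have hl0 : 0 ≤ l := div_nonneg h2 hd.le
  have hk0 : 0 ≤ k := div_nonneg h1 hd.le
  have ha : a = l * n1 + k * m1 := by
    rw [hl, hk, div_mul_eq_mul_div, div_mul_eq_mul_div, ← add_div, eq_div_iff hd']
    ring
  have hb : b = l * n2 + k * m2 := by
    rw [hl, hk, div_mul_eq_mul_div, div_mul_eq_mul_div, ← add_div, eq_div_iff hd']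
    ring
  have hs : a * v1 + b * v2 = l + k := by
    calc a * v1 + b * v2 = l * (v1 * n1 + v2 * n2) + k * (v1 * m1 + v2 * m2) := by
          rw [ha, hb]; ring
      _ = l + k := by rw [hvn, hvm]; ring
  rw [hs]
  apply Real.sqrt_le_iff.2
  refine ⟨add_nonneg hl0 hk0, ?_⟩
  have hc : n1 * m1 + n2 * m2 ≤ 1 := by nlinarith [sq_nonneg (n1 - m1), sq_nonneg (n2 - m2)]
  have e : a ^ 2 + b ^ 2 = l ^ 2 * (n1 ^ 2 + n2 ^ 2) + k ^ 2 * (m1 ^ 2 + m2 ^ 2) +
      2 * (l * k) * (n1 * m1 + n2 * m2) := by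
    rw [ha, hb]; ring
  rw [e, hn, hm]
  nlinarith [mul_nonneg hl0 hk0, mul_nonneg (mul_nonneg hl0 hk0) (sub_nonneg.2 hc)]

/-- The arc: if `w` is in the cone of `n_L` and `n_R` then `(260 / 701) |w| ≤ - b`. -/
theorem coneArc {a b : ℝ} (h1 : 0 ≤ (-651 / 701) * b - (-260 / 701) * a)
    (h2 : 0 ≤ a * (-260 / 701) - b * (651 / 701)) :
    260 / 701 * Real.sqrt (a ^ 2 + b ^ 2) ≤ -b := by
  have hb : b ≤ 0 := by linarith
  have h3 : 0 ≤ 651 * (-b) - a * 260 := by linarith
  have h4 : 0 ≤ 651 * (-b) + a * 260 := by linarith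
  have h6 : Real.sqrt (a ^ 2 + b ^ 2) ≤ 701 / 260 * (-b) := by
    apply Real.sqrt_le_iff.2
    refine ⟨by linarith, ?_⟩
    nlinarith [mul_nonneg h3 h4]
  linarith

/-- The arc and the points `A, B, S₁, S₂` see every direction. -/
theorem see (a b : ℝ) :
    260 / 701 * Real.sqrt (a ^ 2 + b ^ 2) ≤ -b ∨
    Real.sqrt (a ^ 2 + b ^ 2) ≤ a * (-799 / 709) + b * (89 / 709) ∨
    Real.sqrt (a ^ 2 + b ^ 2) ≤ a * (451 / 381) + b * (34 / 127) ∨
    Real.sqrt (a ^ 2 + b ^ 2) ≤ a * (-1 / 2) + b * (271 / 261) ∨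
    Real.sqrt (a ^ 2 + b ^ 2) ≤ a * (275 / 653) + b * (635 / 653) := by
  -- signs of the determinants
  rcases le_total 0 ((-651 / 701) * b - (-260 / 701) * a) with hL | hL <;>
  rcases le_total 0 ((651 / 701) * b - (-260 / 701) * a) with hR | hR <;>
  rcases le_total 0 ((207 / 305) * b - (224 / 305) * a) with h2 | h2 <;>
  rcases le_total 0 ((56 / 785) * b - (783 / 785) * a) with h1 | h1 <;>
  rcases le_total 0 ((-380 / 461) * b - (261 / 461) * a) with h0 | h0 <;>
  first
  | (left; exact coneArc hL (by linarith))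
  | (right; left
     exact cone (n1 := -380 / 461) (n2 := 261 / 461) (m1 := -651 / 701) (m2 := -260 / 701)
       (by norm_num) (by norm_num) (by norm_num) (by norm_num) (by norm_num) h0 (by linarith))
  | (right; right; left
     exact cone (n1 := 651 / 701) (n2 := -260 / 701) (m1 := 207 / 305) (m2 := 224 / 305)
       (by norm_num) (by norm_num) (by norm_num) (by norm_num) (by norm_num) hR (by linarith))
  | (right; right; right; left
     exact cone (n1 := 56 / 785) (n2 := 783 / 785) (m1 := -380 / 461) (m2 := 261 / 461)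
       (by norm_num) (by norm_num) (by norm_num) (by norm_num) (by norm_num) h1 (by linarith))
  | (right; right; right; right
     exact cone (n1 := 207 / 305) (n2 := 224 / 305) (m1 := 56 / 785) (m2 := 783 / 785)
       (by norm_num) (by norm_num) (by norm_num) (by norm_num) (by norm_num) h2 (by linarith))
  | (have ha : a = 0 := by linarith
     have hb : b = 0 := by linarith
     left; subst ha; subst hb; simp)

end Pool.Agent.OU
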