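import Mathlib

/-!
# Opaque sets of the disc, upper bound: the curves and their lengths
-/

set_option autoImplicit false

noncomputable section

namespace Pool.Agent.OU

open Set

/-- the plane -/
abbrev E : Type := EuclideanSpace ℝ (Fin 2)

/-- the point with the coordinates `x`, `y` -/
def pt (x y : ℝ) : E := !₂[x, y]

@[simp] theorem pt_zero (x y : ℝ) : pt x y 0 = x := rfl

@[simp] theorem pt_one (x y : ℝ) : pt x y 1 = y := rfl

theorem pt_dist (x y x' y' : ℝ) : dist (pt x y) (pt x' y') = Real.sqrt ((x - x') ^ 2 + (y - y') ^ 2) := by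
  rw [EuclideanSpace.dist_eq, Fin.sum_univ_two]
  simp only [pt_zero, pt_one, Real.dist_eq, sq_abs]

/-- the segment from `(x, y)` to `(x', y')` -/
def seg (x y x' y' : ℝ) (t : ℝ) : E := pt (x + t * (x' - x)) (y + t * (y' - y))

theorem seg_lip {x y x' y' q : ℝ} (hq : 0 ≤ q) (h : (x' - x) ^ 2 + (y' - y) ^ 2 ≤ q ^ 2) :
    LipschitzWith (Real.toNNReal q) (seg x y x' y') := by
  apply LipschitzWith.of_dist_le_mul
  intro s t
  rw [Real.coe_toNNReal q hq, seg, seg, pt_dist, Real.dist_eq]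
  apply Real.sqrt_le_iff.2
  refine ⟨mul_nonneg hq (abs_nonneg _), ?_⟩
  have e : (x + s * (x' - x) - (x + t * (x' - x))) ^ 2 + (y + s * (y' - y) - (y + t * (y' - y))) ^ 2 =
      (s - t) ^ 2 * ((x' - x) ^ 2 + (y' - y) ^ 2) := by ring
  rw [e, mul_pow, sq_abs, mul_comm (q ^ 2)]
  exact mul_le_mul_of_nonneg_left h (sq_nonneg _)

/-- the arc of the unit circle from `(-sin σ, -cos σ)` through `(0, -1)` to `(sin σ, -cos σ)` -/
def arc (σ : ℝ) (t : ℝ) : E := pt (Real.sin ((2 * t - 1) * σ)) (-Real.cos ((2 * t - 1) * σ))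

theorem arc_lip {σ : ℝ} (hσ : 0 ≤ σ) : LipschitzWith (Real.toNNReal (2 * σ)) (arc σ) := by
  apply LipschitzWith.of_dist_le_mul
  intro s t
  rw [Real.coe_toNNReal _ (by linarith), arc, arc, pt_dist, Real.dist_eq]
  apply Real.sqrt_le_iff.2
  refine ⟨mul_nonneg (by linarith) (abs_nonneg _), ?_⟩
  set u := (2 * s - 1) * σ with hu
  set v := (2 * t - 1) * σ with hv
  have e : (Real.sin u - Real.sin v) ^ 2 + (-Real.cos u - -Real.cos v) ^ 2 = 2 - 2 * Real.cos (u - v) := by
    rw [Real.cos_sub]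
    nlinarith [Real.sin_sq_add_cos_sq u, Real.sin_sq_add_cos_sq v]
  have e2 : (2 * σ * |s - t|) ^ 2 = (u - v) ^ 2 := by
    rw [mul_pow, sq_abs, hu, hv]
    ring
  rw [e, e2]
  have := Real.one_sub_sq_div_two_le_cos (x := u - v)
  linarith

/-- A curve with Lipschitz constant `q` has length at most `q (b - a)` on `[a, b]`. -/
theorem len_le {f : ℝ → E} {q a b : ℝ} (hq : 0 ≤ q) (hf : LipschitzWith (Real.toNNReal q) f) (hab : a ≤ b) :
    eVariationOn f (Icc a b) ≤ ENNReal.ofReal (q * (b - a)) := by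
  have h1 := (hf.lipschitzOnWith (s := univ)).comp_eVariationOn_le (g := (id : ℝ → ℝ)) (s := Icc a b)
    (mapsTo_univ _ _)
  have h2 : eVariationOn (id : ℝ → ℝ) (Icc a b) ≤ ENNReal.ofReal (b - a) := by
    have := (monotone_id (α := ℝ)).monotoneOn (Icc a b) |>.eVariationOn_le (left_mem_Icc.2 hab)
      (right_mem_Icc.2 hab)
    rwa [inter_self] at this
  have h3 : eVariationOn f (Icc a b) ≤ (Real.toNNReal q : ENNReal) * ENNReal.ofReal (b - a) :=
    (h1.trans (mul_le_mul_right h2 _))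
  rw [ENNReal.ofReal_mul hq]
  exact h3

/-- The reparametrised curve `t ↦ f (3 t - i)` on `[i/3, (i+1)/3]`. -/
theorem len_third {f g : ℝ → E} {q c d : ℝ} (i : ℝ) (hq : 0 ≤ q) (hf : LipschitzWith (Real.toNNReal q) f)
    (hc : c = i / 3) (hd : d = (i + 1) / 3) (hg : ∀ t ∈ Icc c d, g t = f (3 * t - i)) :
    eVariationOn g (Icc c d) ≤ ENNReal.ofReal q := by
  have h0 : LipschitzWith (Real.toNNReal (3 * q)) fun t => f (3 * t - i) := by
    apply LipschitzWith.of_dist_le_mul
    intro s t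
    rw [Real.coe_toNNReal _ (by linarith)]
    have h1 := hf.dist_le_mul (3 * s - i) (3 * t - i)
    rw [Real.coe_toNNReal q hq, Real.dist_eq] at h1
    rw [Real.dist_eq]
    refine h1.trans_eq ?_
    have : 3 * s - i - (3 * t - i) = 3 * (s - t) := by ring
    rw [this, abs_mul, abs_of_pos (by norm_num : (0 : ℝ) < 3)]
    ring
  have hcd : c ≤ d := by rw [hc, hd]; linarith
  rw [eVariationOn.eq_of_eqOn (f' := fun t => f (3 * t - i)) (fun t ht => hg t ht)]
  refine (len_le (by linarith) h0 hcd).trans (ENNReal.ofReal_le_ofReal ?_)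
  rw [hc, hd]
  apply le_of_eq
  ring

/-- The first curve: the leg from `A`, the arc, the leg to `B`. -/
def bow (σ : ℝ) (t : ℝ) : E :=
  if t ≤ 1 / 3 then seg (-799 / 709) (89 / 709) (-Real.sin σ) (-Real.cos σ) (3 * t)
  else if t ≤ 2 / 3 then arc σ (3 * t - 1)
  else seg (Real.sin σ) (-Real.cos σ) (451 / 381) (34 / 127) (3 * t - 2)

theorem seg_cont (x y x' y' : ℝ) : Continuous (seg x y x' y') := by
  unfold seg pt
  fun_prop

theorem arc_cont (σ : ℝ) : Continuous (arc σ) := by
  unfold arc pt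
  fun_prop

theorem bow_cont (σ : ℝ) : Continuous (bow σ) := by
  unfold bow
  refine Continuous.if_le ((seg_cont _ _ _ _).comp (by fun_prop)) ?_ continuous_id continuous_const ?_
  · refine Continuous.if_le ((arc_cont _).comp (by fun_prop)) ((seg_cont _ _ _ _).comp (by fun_prop))
      continuous_id continuous_const ?_
    intro t ht
    rw [ht]
    simp only [arc, seg]
    norm_num
  · intro t ht
    rw [ht, if_pos (by norm_num)]
    simp only [arc, seg]
    norm_num

end Pool.Agent.OU
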