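import Mathlib
import Pool.Agent.Lib.OU.Cone
import Pool.Agent.Lib.OU.Cur

/-!
# Opaque sets of the disc, upper bound: every line through the disc is hit
-/

set_option autoImplicit false

noncomputable section

namespace Pool.Agent.OU

open Set

/-- the angle `σ` with `sin σ = 651 / 701`, `cos σ = 260 / 701` -/
def sg : ℝ := Real.pi / 2 - 2 * Real.arctan (5 / 26)

theorem cos_two_arctan (z : ℝ) : Real.cos (2 * Real.arctan z) = (1 - z ^ 2) / (1 + z ^ 2) := by
  have h : (1 + z ^ 2) ≠ 0 := by positivity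
  rw [Real.cos_two_mul, Real.cos_sq_arctan]
  field_simp
  ring

theorem sin_two_arctan (z : ℝ) : Real.sin (2 * Real.arctan z) = 2 * z / (1 + z ^ 2) := by
  have h : (0 : ℝ) < 1 + z ^ 2 := by positivity
  have h2 : Real.sqrt (1 + z ^ 2) ≠ 0 := (Real.sqrt_pos.2 h).ne'
  rw [Real.sin_two_mul, Real.sin_arctan, Real.cos_arctan]
  have h3 : 2 * (z / Real.sqrt (1 + z ^ 2)) * (1 / Real.sqrt (1 + z ^ 2)) =
      2 * z / (Real.sqrt (1 + z ^ 2) * Real.sqrt (1 + z ^ 2)) := by
    field_simp
  rw [h3, Real.mul_self_sqrt h.le]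

theorem sin_sg : Real.sin sg = 651 / 701 := by
  rw [sg, Real.sin_pi_div_two_sub, cos_two_arctan]
  norm_num

theorem cos_sg : Real.cos sg = 260 / 701 := by
  rw [sg, Real.cos_pi_div_two_sub, sin_two_arctan]
  norm_num

theorem arctan_pos' : 0 < Real.arctan (5 / 26) := Real.arctan_pos.2 (by norm_num)

theorem sg_le : sg ≤ Real.pi / 2 := by
  have := arctan_pos'
  rw [sg]
  linarith

theorem sg_pos : 0 < sg := by
  have h1 : Real.arctan (5 / 26) < Real.arctan 1 := Real.arctan_strictMono (by norm_num)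
  rw [Real.arctan_one] at h1
  rw [sg]
  linarith

theorem bow_zero : bow sg 0 = pt (-799 / 709) (89 / 709) := by
  rw [bow, if_pos (by norm_num), seg]
  norm_num

theorem bow_one : bow sg 1 = pt (451 / 381) (34 / 127) := by
  rw [bow, if_neg (by norm_num), if_neg (by norm_num), seg]
  norm_num

/-- the points of the arc are on the first curve -/
theorem bow_arc {s : ℝ} (h1 : -sg ≤ s) (h2 : s ≤ sg) :
    ∃ t ∈ Icc (0 : ℝ) 1, bow sg t = pt (Real.sin s) (-Real.cos s) := by
  have hs := sg_pos
  set u : ℝ := (s / sg + 1) / 2 with hu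
  have hu0 : 0 ≤ u := by
    have : -1 ≤ s / sg := by
      rw [le_div_iff₀ hs]
      linarith
    rw [hu]
    linarith
  have hu1 : u ≤ 1 := by
    have : s / sg ≤ 1 := by
      rw [div_le_iff₀ hs]
      linarith
    rw [hu]
    linarith
  have he : (2 * u - 1) * sg = s := by
    rw [hu]
    field_simp
    ring
  have harc : arc sg u = pt (Real.sin s) (-Real.cos s) := by
    rw [arc, he]
  refine ⟨(u + 1) / 3, ⟨by linarith, by linarith⟩, ?_⟩
  rcases eq_or_lt_of_le hu0 with h | h
  · have hs' : s = -sg := by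
      rw [← he, ← h]
      ring
    rw [← h, bow, if_pos (by norm_num), seg, hs', Real.sin_neg, Real.cos_neg]
    norm_num
  · rw [bow, if_neg (by linarith), if_pos (by linarith), ← harc]
    congr 1
    ring

/-- a linear function -/
def lin (a b : ℝ) (p : E) : ℝ := a * p 0 + b * p 1

@[simp] theorem lin_pt (a b x y : ℝ) : lin a b (pt x y) = a * x + b * y := rfl

theorem lin_cont (a b : ℝ) : Continuous (lin a b) := by
  unfold lin
  fun_prop

/-- a curve on which a linear function takes values on both sides of `c` meets the line -/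
theorem ivt {f : ℝ → E} (hf : Continuous f) {a b c s t : ℝ} (hs : s ∈ Icc (0 : ℝ) 1) (ht : t ∈ Icc (0 : ℝ) 1)
    (h1 : lin a b (f s) ≤ c) (h2 : c ≤ lin a b (f t)) : ∃ r ∈ Icc (0 : ℝ) 1, lin a b (f r) = c := by
  have hc : ContinuousOn (fun r => lin a b (f r)) (Icc (0 : ℝ) 1) := ((lin_cont a b).comp hf).continuousOn
  exact isPreconnected_Icc.intermediate_value hs ht hc ⟨h1, h2⟩

/-- The second and the third curve. -/
def arrow₁ : ℝ → E := seg (-1 / 2) (271 / 261) (-8802760 / 19719417) (2200767 / 13146278)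

/-- The third curve. -/
def arrow₂ : ℝ → E := seg (275 / 653) (635 / 653) (29915 / 104394) (3080377 / 4541139)

/-- A line which has the first curve on its left, and meets the disc, meets one of the two segments. -/
theorem hit_aux {a b c : ℝ} (hc : c ≤ Real.sqrt (a ^ 2 + b ^ 2))
    (hbow : ∀ t ∈ Icc (0 : ℝ) 1, lin a b (bow sg t) < c) :
    (∃ t ∈ Icc (0 : ℝ) 1, lin a b (arrow₁ t) = c) ∨ ∃ t ∈ Icc (0 : ℝ) 1, lin a b (arrow₂ t) = c := by
  have hA : a * (-799 / 709) + b * (89 / 709) < c := by
    have := hbow 0 (by norm_num)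
    rwa [bow_zero, lin_pt] at this
  have hB : a * (451 / 381) + b * (34 / 127) < c := by
    have := hbow 1 (by norm_num)
    rwa [bow_one, lin_pt] at this
  have hS : c ≤ a * (-1 / 2) + b * (271 / 261) ∨ c ≤ a * (275 / 653) + b * (635 / 653) := by
    rcases see a b with h | h | h | h | h
    · exfalso
      set ρ := Real.sqrt (a ^ 2 + b ^ 2) with hρ
      have hρ0 : 0 ≤ ρ := Real.sqrt_nonneg _
      have hρ2 : ρ ^ 2 = a ^ 2 + b ^ 2 := Real.sq_sqrt (by positivity)
      rcases eq_or_lt_of_le hρ0 with h0 | h0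
      · have ha : a = 0 := by nlinarith [sq_nonneg a, sq_nonneg b]
        have hb : b = 0 := by nlinarith [sq_nonneg a, sq_nonneg b]
        rw [ha, hb] at hA
        linarith
      · have hb0 : 260 / 701 ≤ -b / ρ := by
          rw [le_div_iff₀ h0]
          exact h
        have hsum : (a / ρ) ^ 2 + (b / ρ) ^ 2 = 1 := by
          rw [div_pow, div_pow, ← add_div, ← hρ2]
          exact div_self (by positivity)
        have hnb : -b / ρ = -(b / ρ) := by ring
        have ha1 : a / ρ ≤ 1 := by nlinarith [sq_nonneg (b / ρ)]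
        have ha2 : -1 ≤ a / ρ := by nlinarith [sq_nonneg (b / ρ)]
        set s := Real.arcsin (a / ρ) with hs
        have hsin : Real.sin s = a / ρ := Real.sin_arcsin ha2 ha1
        have hcos : Real.cos s = -(b / ρ) := by
          rw [hs, Real.cos_arcsin]
          have : 1 - (a / ρ) ^ 2 = (-(b / ρ)) ^ 2 := by rw [neg_sq]; linarith
          rw [this]
          exact Real.sqrt_sq (by rw [← hnb]; linarith)
        have habs : |s| ≤ sg := by
          by_contra hlt
          rw [not_le] at hlt
          have h5 : |s| ≤ Real.pi := by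
            have h6 : |s| ≤ Real.pi / 2 := abs_le.2 ⟨Real.neg_pi_div_two_le_arcsin _, Real.arcsin_le_pi_div_two _⟩
            linarith [Real.pi_pos]
          have h7 := Real.cos_lt_cos_of_nonneg_of_le_pi sg_pos.le h5 hlt
          rw [Real.cos_abs, cos_sg, hcos, ← hnb] at h7
          linarith
        obtain ⟨t, ht, he⟩ := bow_arc (abs_le.1 habs).1 (abs_le.1 habs).2
        have h8 := hbow t ht
        rw [he, lin_pt, hsin, hcos, neg_neg] at h8
        have h9 : a * (a / ρ) + b * (b / ρ) = ρ := by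
          rw [← mul_div_assoc, ← mul_div_assoc, ← add_div, ← sq, ← sq, ← hρ2, sq]
          exact mul_div_cancel_right₀ ρ h0.ne'
        linarith
    · exfalso; linarith
    · exfalso; linarith
    · left; linarith
    · right; linarith
  rcases le_or_gt c (a * (-1 / 2) + b * (271 / 261)) with h1 | h1
  · left
    have h2 := ivt (f := arrow₁) (seg_cont _ _ _ _) (a := a) (b := b) (c := c) (s := 1) (t := 0) (by norm_num)
      (by norm_num)
    refine h2 ?_ ?_
    · rw [arrow₁, seg, lin_pt]
      have e : a * (-1 / 2 + 1 * (-8802760 / 19719417 - -1 / 2)) +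
          b * (271 / 261 + 1 * (2200767 / 13146278 - 271 / 261)) =
          103 / 146 * (a * (-799 / 709) + b * (89 / 709)) + 43 / 146 * (a * (451 / 381) + b * (34 / 127)) := by
        ring
      rw [e]
      linarith
    · rw [arrow₁, seg, lin_pt]
      linarith
  · right
    have h3 : c ≤ a * (275 / 653) + b * (635 / 653) := by
      rcases hS with h | h
      · exact absurd h (not_le.2 h1)
      · exact h
    have h2 := ivt (f := arrow₂) (seg_cont _ _ _ _) (a := a) (b := b) (c := c) (s := 1) (t := 0) (by norm_num)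
      (by norm_num)
    refine h2 ?_ ?_
    · rw [arrow₂, seg, lin_pt]
      have e : a * (275 / 653 + 1 * (29915 / 104394 - 275 / 653)) +
          b * (635 / 653 + 1 * (3080377 / 4541139 - 635 / 653)) =
          73 / 137 * (a * (-1 / 2) + b * (271 / 261)) + 64 / 137 * (a * (451 / 381) + b * (34 / 127)) := by
        ring
      rw [e]
      linarith
    · rw [arrow₂, seg, lin_pt]
      linarith

/-- Every line `a x + b y = c` which meets the disc meets one of the three curves. -/
theorem hit {a b c : ℝ} (hc : |c| ≤ Real.sqrt (a ^ 2 + b ^ 2)) :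
    (∃ t ∈ Icc (0 : ℝ) 1, lin a b (bow sg t) = c) ∨ (∃ t ∈ Icc (0 : ℝ) 1, lin a b (arrow₁ t) = c) ∨
      ∃ t ∈ Icc (0 : ℝ) 1, lin a b (arrow₂ t) = c := by
  by_cases h0 : ∃ t ∈ Icc (0 : ℝ) 1, lin a b (bow sg t) = c
  · exact Or.inl h0
  right
  have hneg : ∀ (a b : ℝ) (p : E), lin (-a) (-b) p = -lin a b p := fun a b p => by
    unfold lin
    ring
  have h1 : (∀ t ∈ Icc (0 : ℝ) 1, lin a b (bow sg t) < c) ∨ ∀ t ∈ Icc (0 : ℝ) 1, c < lin a b (bow sg t) := by
    by_contra hcon
    push Not at hcon
    obtain ⟨⟨s, hs, hs'⟩, t, ht, ht'⟩ := hcon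
    exact h0 (ivt (bow_cont sg) ht hs ht' hs')
  rcases h1 with h1 | h1
  · exact hit_aux ((le_abs_self c).trans hc) h1
  · have h2 := hit_aux (a := -a) (b := -b) (c := -c) (by
      rw [neg_sq, neg_sq]
      exact (neg_le_abs c).trans hc) (fun t ht => by rw [hneg]; linarith [h1 t ht])
    rcases h2 with ⟨t, ht, h⟩ | ⟨t, ht, h⟩
    · left
      exact ⟨t, ht, by rw [hneg] at h; linarith⟩
    · right
      exact ⟨t, ht, by rw [hneg] at h; linarith⟩

end Pool.Agent.OU
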