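import Mathlib
import Pool.Agent.Lib.OU.Geo

/-!
# Opaque sets of the disc, upper bound: lines, lengths, the theorem
-/

set_option autoImplicit false

noncomputable section

namespace Pool.Agent.OU

open Set

/-- A line of the plane which meets the closed unit disc is given by an equation `a x + b y = c` with
`|c| ≤ √(a² + b²)`. -/
theorem line_eq (l : AffineSubspace ℝ E) (hl : Module.finrank ℝ l.direction = 1)
    (hx : ∃ x ∈ l, ‖x‖ ≤ 1) : ∃ a b c : ℝ, |c| ≤ Real.sqrt (a ^ 2 + b ^ 2) ∧ ∀ y : E, lin a b y = c → y ∈ l := by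
  obtain ⟨x, hxl, hx1⟩ := hx
  obtain ⟨v, hv0, -⟩ := finrank_eq_one_iff'.1 hl
  have hv : (v : E) ≠ 0 := fun h => hv0 (Subtype.ext h)
  have hpos : 0 < (v : E) 0 ^ 2 + (v : E) 1 ^ 2 := by
    by_contra hcon
    rw [not_lt] at hcon
    apply hv
    have h0 : (v : E) 0 = 0 := by nlinarith [sq_nonneg ((v : E) 0), sq_nonneg ((v : E) 1)]
    have h1 : (v : E) 1 = 0 := by nlinarith [sq_nonneg ((v : E) 0), sq_nonneg ((v : E) 1)]
    ext i
    fin_cases i
    · exact h0
    · exact h1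
  refine ⟨-(v : E) 1, (v : E) 0, lin (-(v : E) 1) ((v : E) 0) x, ?_, ?_⟩
  · apply Real.abs_le_sqrt
    have hn : x 0 ^ 2 + x 1 ^ 2 ≤ 1 := by
      have h2 : ‖x‖ ^ 2 = x 0 ^ 2 + x 1 ^ 2 := by
        rw [EuclideanSpace.real_norm_sq_eq, Fin.sum_univ_two]
      have h3 : ‖x‖ ^ 2 ≤ 1 := by nlinarith [norm_nonneg x]
      linarith
    unfold lin
    nlinarith [sq_nonneg ((v : E) 1 * x 1 + (v : E) 0 * x 0), mul_le_mul_of_nonneg_left hn hpos.le]
  · intro y hy
    rw [← AffineSubspace.vsub_right_mem_direction_iff_mem hxl]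
    have he : y -ᵥ x = (((y 0 - x 0) * (v : E) 0 + (y 1 - x 1) * (v : E) 1) /
        ((v : E) 0 ^ 2 + (v : E) 1 ^ 2)) • (v : E) := by
      unfold lin at hy
      ext i
      fin_cases i
      · show y 0 - x 0 = _ * (v : E) 0
        rw [div_mul_eq_mul_div, eq_div_iff hpos.ne']
        linear_combination (-(v : E) 1) * hy
      · show y 1 - x 1 = _ * (v : E) 1
        rw [div_mul_eq_mul_div, eq_div_iff hpos.ne']
        linear_combination ((v : E) 0) * hy
    rw [he]
    exact l.direction.smul_mem _ v.2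

theorem arctan_lower {z : ℝ} (hz : 0 ≤ z) : z - z ^ 3 / 3 + z ^ 5 / 5 - z ^ 7 / 7 ≤ Real.arctan z := by
  have hd : ∀ x : ℝ, HasDerivAt (fun x => Real.arctan x - (x - x ^ 3 / 3 + x ^ 5 / 5 - x ^ 7 / 7))
      (1 / (1 + x ^ 2) - (1 - 3 * x ^ 2 / 3 + 5 * x ^ 4 / 5 - 7 * x ^ 6 / 7)) x := by
    intro x
    have h3 : HasDerivAt (fun x : ℝ => x ^ 3 / 3) (3 * x ^ 2 / 3) x := by
      simpa using (hasDerivAt_pow 3 x).div_const 3
    have h5 : HasDerivAt (fun x : ℝ => x ^ 5 / 5) (5 * x ^ 4 / 5) x := by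
      simpa using (hasDerivAt_pow 5 x).div_const 5
    have h7 : HasDerivAt (fun x : ℝ => x ^ 7 / 7) (7 * x ^ 6 / 7) x := by
      simpa using (hasDerivAt_pow 7 x).div_const 7
    exact (Real.hasDerivAt_arctan x).sub ((((hasDerivAt_id x).sub h3).add h5).sub h7)
  have hm : MonotoneOn (fun x => Real.arctan x - (x - x ^ 3 / 3 + x ^ 5 / 5 - x ^ 7 / 7)) (Ici (0 : ℝ)) := by
    apply monotoneOn_of_deriv_nonneg (convex_Ici 0)
    · exact fun x _ => (hd x).continuousAt.continuousWithinAt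
    · exact fun x _ => (hd x).differentiableAt.differentiableWithinAt
    · intro x _
      rw [(hd x).deriv]
      have h : (0 : ℝ) < 1 + x ^ 2 := by positivity
      have e : 1 / (1 + x ^ 2) - (1 - 3 * x ^ 2 / 3 + 5 * x ^ 4 / 5 - 7 * x ^ 6 / 7) =
          x ^ 8 / (1 + x ^ 2) := by
        field_simp
        ring
      rw [e]
      positivity
  have h := hm (mem_Ici.2 le_rfl) (mem_Ici.2 hz) hz
  simp only [Real.arctan_zero] at h
  linarith

theorem two_sg_le : 2 * sg ≤ Real.pi - 4 * (5 / 26 - (5 / 26) ^ 3 / 3 + (5 / 26) ^ 5 / 5 - (5 / 26) ^ 7 / 7) := by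
  have h := arctan_lower (z := 5 / 26) (by norm_num)
  rw [sg]
  linarith

theorem len_bow : eVariationOn (bow sg) (Icc 0 1) ≤
    ENNReal.ofReal (379 / 709) + ENNReal.ofReal (2 * sg) + ENNReal.ofReal (262 / 381) := by
  have h1 : eVariationOn (bow sg) (Icc 0 (1 / 3)) ≤ ENNReal.ofReal (379 / 709) := by
    refine len_third (f := seg (-799 / 709) (89 / 709) (-Real.sin sg) (-Real.cos sg)) 0 (by norm_num)
      (seg_lip (by norm_num) (by rw [sin_sg, cos_sg]; norm_num)) (by norm_num) (by norm_num) ?_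
    intro t ht
    rw [bow, if_pos ht.2, sub_zero]
  have h2 : eVariationOn (bow sg) (Icc (1 / 3) (2 / 3)) ≤ ENNReal.ofReal (2 * sg) := by
    refine len_third (f := arc sg) 1 (by linarith [sg_pos]) (arc_lip sg_pos.le) (by norm_num) (by norm_num) ?_
    intro t ht
    rcases eq_or_lt_of_le ht.1 with h | h
    · rw [← h, bow, if_pos le_rfl]
      simp only [arc, seg]
      norm_num
    · rw [bow, if_neg (not_le.2 h), if_pos ht.2]
  have h3 : eVariationOn (bow sg) (Icc (2 / 3) 1) ≤ ENNReal.ofReal (262 / 381) := by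
    refine len_third (f := seg (Real.sin sg) (-Real.cos sg) (451 / 381) (34 / 127)) 2 (by norm_num)
      (seg_lip (by norm_num) (by rw [sin_sg, cos_sg]; norm_num)) (by norm_num) (by norm_num) ?_
    intro t ht
    rcases eq_or_lt_of_le ht.1 with h | h
    · rw [← h, bow, if_neg (by norm_num), if_pos le_rfl]
      simp only [arc, seg]
      norm_num
    · rw [bow, if_neg (by linarith), if_neg (not_le.2 h)]
  have e1 := eVariationOn.Icc_add_Icc (bow sg) (s := univ) (a := 0) (b := 1 / 3) (c := 2 / 3) (by norm_num)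
    (by norm_num) (mem_univ _)
  have e2 := eVariationOn.Icc_add_Icc (bow sg) (s := univ) (a := 0) (b := 2 / 3) (c := 1) (by norm_num)
    (by norm_num) (mem_univ _)
  simp only [univ_inter] at e1 e2
  rw [← e2, ← e1]
  exact add_le_add (add_le_add h1 h2) h3

theorem len_arrow₁ : eVariationOn arrow₁ (Icc 0 1) ≤ ENNReal.ofReal (8725559 / 10000000) := by
  refine (len_le (by norm_num) (seg_lip (q := 8725559 / 10000000) (by norm_num) (by norm_num))
    zero_le_one).trans_eq ?_
  norm_num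

theorem len_arrow₂ : eVariationOn arrow₂ (Icc 0 1) ≤ ENNReal.ofReal (16171721 / 50000000) := by
  refine (len_le (by norm_num) (seg_lip (q := 16171721 / 50000000) (by norm_num) (by norm_num))
    zero_le_one).trans_eq ?_
  norm_num

/-- There are three continuous curves of total length at most `4.79985` such that every line which meets
the closed unit disc meets one of them. -/
theorem upper : ∃ γ : Fin 3 → ℝ → EuclideanSpace ℝ (Fin 2),
    (∀ k, ContinuousOn (γ k) (Icc 0 1)) ∧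
    (∀ l : AffineSubspace ℝ (EuclideanSpace ℝ (Fin 2)), Module.finrank ℝ l.direction = 1 →
      (∃ x ∈ l, ‖x‖ ≤ 1) → ∃ k, ∃ t ∈ Icc (0 : ℝ) 1, γ k t ∈ l) ∧
    ∑ k, eVariationOn (γ k) (Icc 0 1) ≤ ENNReal.ofReal (479985 / 100000) := by
  refine ⟨![bow sg, arrow₁, arrow₂], ?_, ?_, ?_⟩
  · intro k
    fin_cases k
    · exact (bow_cont sg).continuousOn
    · exact (seg_cont _ _ _ _).continuousOn
    · exact (seg_cont _ _ _ _).continuousOn
  · intro l hl hx
    obtain ⟨a, b, c, hc, hy⟩ := line_eq l hl hx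
    rcases hit hc with ⟨t, ht, h⟩ | ⟨t, ht, h⟩ | ⟨t, ht, h⟩
    · exact ⟨0, t, ht, hy _ h⟩
    · exact ⟨1, t, ht, hy _ h⟩
    · exact ⟨2, t, ht, hy _ h⟩
  · rw [Fin.sum_univ_three]
    show eVariationOn (bow sg) (Icc 0 1) + eVariationOn arrow₁ (Icc 0 1) + eVariationOn arrow₂ (Icc 0 1) ≤ _
    refine (add_le_add (add_le_add len_bow len_arrow₁) len_arrow₂).trans ?_
    have hs := sg_pos
    rw [← ENNReal.ofReal_add (by norm_num) (by linarith), ← ENNReal.ofReal_add (by linarith) (by norm_num),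
      ← ENNReal.ofReal_add (by linarith) (by norm_num), ← ENNReal.ofReal_add (by linarith) (by norm_num)]
    apply ENNReal.ofReal_le_ofReal
    have h := two_sg_le
    have hpi := Real.pi_lt_d20
    have e : (5 / 26 - (5 / 26) ^ 3 / 3 + (5 / 26) ^ 5 / 5 - (5 / 26) ^ 7 / 7 : ℝ) =
        5 / 26 - (5 / 26) ^ 3 / 3 + (5 / 26) ^ 5 / 5 - (5 / 26) ^ 7 / 7 := rfl
    norm_num at h hpi ⊢
    linarith

end Pool.Agent.OU
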